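import Pool.Agent.Helper76.TK7.StK

/-!
# Project TK (level `3 * 7^n`), module TYPK7: maps of the plane and their types

All maps are written as pairs of fractional linear maps in one coordinate; the relations are identities of matrices up to scalars.
Models: Pool/Agent/Helper55/TH7/M_TYPH7.lean and Pool/Agent/Helper44/TK5/M_TYPK.lean.
-/

set_option autoImplicit false

namespace Pool.Agent.Helper75.TK7

open Pool.Agent.Helper76.TK7 Pool.Agent.Helper76.S7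

private theorem unit7 {m : ℕ} (a : ℤ) (ha : ¬ (7 : ℤ) ∣ a) (z : ZMod (7 ^ m)) :
    IsUnit ((a : ZMod (7 ^ m)) + 7 * z) := by
  obtain ⟨k, rfl⟩ := ZMod.intCast_surjective z
  have h7 : Prime (7 : ℤ) := by norm_num
  have h1 : IsCoprime (7 : ℤ) (a + 7 * k) := by
    refine (Irreducible.coprime_iff_not_dvd h7.irreducible).mpr fun h => ha ?_
    exact (dvd_add_left (dvd_mul_right 7 k)).mp h
  obtain ⟨u, v, huv⟩ := h1.pow_left (m := m)
  refine IsUnit.of_mul_eq_one ((v : ZMod (7 ^ m))) ?_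
  have h2 := congrArg (Int.cast : ℤ → ZMod (7 ^ m)) huv
  push_cast at h2
  have h3 : (7 : ZMod (7 ^ m)) ^ m = 0 := by
    have := ZMod.natCast_self (7 ^ m)
    push_cast at this
    exact this
  rw [h3] at h2
  linear_combination h2

private theorem unitA (μ : ℕ) {m : ℕ} (a c : ℤ) (ha : ¬ (7 : ℤ) ∣ a) (x : ZMod (7 ^ m)) :
    IsUnit ((a : ZMod (7 ^ m)) + 7 ^ (μ + 1) * c * x) := by
  have h := unit7 (m := m) a ha (7 ^ μ * c * x)
  have e : (a : ZMod (7 ^ m)) + 7 * (7 ^ μ * c * x) = (a : ZMod (7 ^ m)) + 7 ^ (μ + 1) * c * x := by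
    ring
  rwa [e] at h

private theorem frac_eq {n : ℕ} {x y s t : ZMod n} (hs : IsUnit s) (ht : IsUnit t)
    (h : x * t = y * s) : x * s⁻¹ = y * t⁻¹ := by
  have h1 := ZMod.mul_inv_of_unit s hs
  have h2 := ZMod.mul_inv_of_unit t ht
  linear_combination (x * s⁻¹) * (-h2) + (y * t⁻¹) * h1 + s⁻¹ * t⁻¹ * h

/-- The fraction in the definition of `trp`. -/
private noncomputable def mob (μ : ℕ) {m : ℕ} (a b c d : ℤ) (t : ZMod (7 ^ m)) : ZMod (7 ^ m) :=
  ((b : ZMod (7 ^ m)) + d * t) * ((a : ZMod (7 ^ m)) + 7 ^ (μ + 1) * c * t)⁻¹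

private theorem trp_eq (μ : ℕ) {m : ℕ} (a b c d : ℤ) (p : Pt m) :
    trp μ a b c d p = (mob μ a b c d p.1, mob μ d c b a p.2) := rfl

private theorem mob_mob (μ : ℕ) {m : ℕ} (a b c d a' b' c' d' : ℤ) (ha : ¬ (7 : ℤ) ∣ a)
    (ha' : ¬ (7 : ℤ) ∣ a') (hA : ¬ (7 : ℤ) ∣ a * a' + 7 ^ (μ + 1) * b * c') (t : ZMod (7 ^ m)) :
    mob μ a' b' c' d' (mob μ a b c d t) =
      mob μ (a * a' + 7 ^ (μ + 1) * b * c') (a * b' + b * d') (c * a' + d * c')
        (7 ^ (μ + 1) * c * b' + d * d') t := by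
  have h1 := ZMod.mul_inv_of_unit _ (unitA μ a c ha t)
  refine frac_eq (unitA μ a' c' ha' _) (unitA μ _ _ hA t) ?_
  unfold mob
  push_cast
  linear_combination (d' * ((b : ZMod (7 ^ m)) + d * t) * a' -
    b' * (7 ^ (μ + 1) * c' * ((b : ZMod (7 ^ m)) + d * t))) * h1

private theorem mob_id (μ : ℕ) {m : ℕ} (t : ZMod (7 ^ m)) : mob μ 1 0 0 1 t = t := by
  unfold mob
  simp

private theorem mob_arg_neg (μ : ℕ) {m : ℕ} (a b c d : ℤ) (t : ZMod (7 ^ m)) :
    mob μ a b c d (-t) = mob μ a b (-c) (-d) t := by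
  unfold mob
  push_cast
  ring_nf

private theorem dv_mob (μ : ℕ) {m : ℕ} (a b c d s : ℤ) (ha : ¬ (7 : ℤ) ∣ a)
    (hs : (7 : ℤ) ∣ a * d - 7 ^ (μ + 1) * b * c - s * a ^ 2) :
    Dv s (mob μ a b c d : ZMod (7 ^ m) → ZMod (7 ^ m)) := by
  intro i x x' hx
  obtain ⟨k, hk⟩ := hx
  obtain ⟨q, hq⟩ := hs
  have hq' := congrArg (Int.cast : ℤ → ZMod (7 ^ m)) hq
  push_cast at hq'
  have h := ZMod.mul_inv_of_unit _ (unitA μ a c ha x)
  have h' := ZMod.mul_inv_of_unit _ (unitA μ a c ha x')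
  unfold mob
  set v := ((a : ZMod (7 ^ m)) + 7 ^ (μ + 1) * c * x)⁻¹ with hv
  set v' := ((a : ZMod (7 ^ m)) + 7 ^ (μ + 1) * c * x')⁻¹ with hv'
  refine ⟨k * v * v' * (q - s * (7 ^ μ * c * x * a + 7 ^ μ * c * x' * a +
    7 ^ μ * 7 ^ (μ + 1) * c ^ 2 * x * x')), ?_⟩
  linear_combination (((b : ZMod (7 ^ m)) + d * x') * v' + s * (x - x')) * h +
    (-((b : ZMod (7 ^ m)) + d * x) * v +
      s * (x - x') * (((a : ZMod (7 ^ m)) + 7 ^ (μ + 1) * c * x) * v)) * h' +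
    v * v' * ((a * d - 7 ^ (μ + 1) * b * c) - s * (((a : ZMod (7 ^ m)) + 7 ^ (μ + 1) * c * x) *
      ((a : ZMod (7 ^ m)) + 7 ^ (μ + 1) * c * x'))) * hk + 7 ^ i * k * v * v' * hq'

private theorem dv_neg {m : ℕ} : Dv (-1) (fun x : ZMod (7 ^ m) => -x) := by
  intro i x x' _
  refine ⟨0, ?_⟩
  push_cast
  ring

private theorem ty0 {m : ℕ} (r : Pt m → Pt m) (μ : ℕ) (s s' : ℤ) (a b c d a' b' c' d' : ℤ)
    (ha : ¬ (7 : ℤ) ∣ a) (ha' : ¬ (7 : ℤ) ∣ a') (h1 : ¬ (7 : ℤ) ∣ s) (h2 : ¬ (7 : ℤ) ∣ s - 1)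
    (h3 : ¬ (7 : ℤ) ∣ s') (h4 : ¬ (7 : ℤ) ∣ s' - 1)
    (hs : (7 : ℤ) ∣ a * d - 7 ^ (μ + 1) * b * c - s * a ^ 2)
    (hs' : (7 : ℤ) ∣ a' * d' - 7 ^ (μ + 1) * b' * c' - s' * a' ^ 2)
    (h : ∀ p : Pt m, r p = (mob μ a b c d p.1, mob μ a' b' c' d' p.2)) : Ty 0 r :=
  Or.inl ⟨rfl, s, s', _, _, h1, h2, h3, h4, dv_mob μ a b c d s ha hs,
    dv_mob μ a' b' c' d' s' ha' hs', h⟩

private theorem ty1 {m : ℕ} (r : Pt m → Pt m) (μ : ℕ) (s s' : ℤ) (a b c d a' b' c' d' : ℤ)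
    (ha : ¬ (7 : ℤ) ∣ a) (ha' : ¬ (7 : ℤ) ∣ a') (h1 : ¬ (7 : ℤ) ∣ s) (h3 : ¬ (7 : ℤ) ∣ s')
    (hs : (7 : ℤ) ∣ a * d - 7 ^ (μ + 1) * b * c - s * a ^ 2)
    (hs' : (7 : ℤ) ∣ a' * d' - 7 ^ (μ + 1) * b' * c' - s' * a' ^ 2)
    (h : ∀ p : Pt m, r p = (mob μ a b c d p.2, mob μ a' b' c' d' p.1)) : Ty 1 r :=
  Or.inr ⟨rfl, s, s', _, _, h1, h3, dv_mob μ a b c d s ha hs, dv_mob μ a' b' c' d' s' ha' hs', h⟩

private theorem dR_eq (μ : ℕ) {m : ℕ} (p : Pt m) :
    dR μ p = (mob μ 1 (-1) 0 (-1) p.1, mob μ 1 0 1 (-1) p.2) := by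
  show (mob μ 1 (-1) 0 1 (-p.1), mob μ 1 0 (-1) 1 (-p.2)) = _
  rw [mob_arg_neg, mob_arg_neg]
  norm_num

private theorem dRdR (μ : ℕ) {m : ℕ} (p : Pt m) : dR μ (dR μ p) = p := by
  rw [dR_eq, dR_eq]
  refine Prod.ext ?_ ?_
  · show mob μ 1 (-1) 0 (-1) (mob μ 1 (-1) 0 (-1) p.1) = p.1
    rw [mob_mob _ _ _ _ _ _ _ _ _ (by norm_num) (by norm_num) (by norm_num)]
    norm_num [mob_id]
  · show mob μ 1 0 1 (-1) (mob μ 1 0 1 (-1) p.2) = p.2
    rw [mob_mob _ _ _ _ _ _ _ _ _ (by norm_num) (by norm_num) (by norm_num)]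
    norm_num [mob_id]

/-- Composition of two fractional linear maps, up to the scalar `k`. -/
private theorem mm (μ : ℕ) (k : ℤ) {m : ℕ} (a b c d a' b' c' d' A B C D : ℤ) (ha : ¬ (7 : ℤ) ∣ a)
    (ha' : ¬ (7 : ℤ) ∣ a') (hA : ¬ (7 : ℤ) ∣ A) (hk : ¬ (7 : ℤ) ∣ k)
    (h1 : a * a' + 7 ^ (μ + 1) * b * c' = k * A) (h2 : a * b' + b * d' = k * B)
    (h3 : c * a' + d * c' = k * C) (h4 : 7 ^ (μ + 1) * c * b' + d * d' = k * D) (t : ZMod (7 ^ m)) :
    mob μ a' b' c' d' (mob μ a b c d t) = mob μ A B C D t := by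
  have h5 : Prime (7 : ℤ) := by norm_num
  have hkA : ¬ (7 : ℤ) ∣ k * A := fun h => (h5.dvd_or_dvd h).elim hk hA
  rw [mob_mob μ a b c d a' b' c' d' ha ha' (by rw [h1]; exact hkA) t, h1, h2, h3, h4]
  refine frac_eq (unitA μ _ _ hkA t) (unitA μ A C hA t) ?_
  push_cast
  ring

private theorem swK_eq0 {m : ℕ} (p : Pt m) :
    swK p = (mob 0 3 0 0 1 p.2, mob 0 1 0 0 3 p.1) := by
  unfold swK mob
  simp

private theorem swK_eq1 {m : ℕ} (p : Pt m) :
    swK p = (mob 1 3 0 0 1 p.2, mob 1 1 0 0 3 p.1) := by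
  unfold swK mob
  simp

private theorem ng_eq (μ : ℕ) {m : ℕ} (p : Pt m) :
    ng p = (mob μ 1 0 0 (-1) p.1, mob μ 1 0 0 (-1) p.2) := by
  unfold ng mob
  simp

private theorem ngsw_eq0 {m : ℕ} (p : Pt m) :
    ng (swK p) = (mob 0 3 0 0 (-1) p.2, mob 0 1 0 0 (-3) p.1) := by
  unfold ng swK mob
  simp

private theorem ngsw_eq1 {m : ℕ} (p : Pt m) :
    ng (swK p) = (mob 1 3 0 0 (-1) p.2, mob 1 1 0 0 (-3) p.1) := by
  unfold ng swK mob
  simp

private theorem cOK_eq {m : ℕ} (p : Pt m) :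
    cOK p = (mob 0 6 (-3) 3 (-10) p.2, mob 0 10 (-3) 3 (-6) p.1) := by
  unfold cOK
  rw [swK_eq0, trp_eq]
  exact Prod.ext (mm _ 1 _ _ _ _ _ _ _ _ _ _ _ _ (by norm_num) (by norm_num) (by norm_num) (by norm_num) (by norm_num) (by norm_num) (by norm_num) (by norm_num) _)
    (mm _ (-1) _ _ _ _ _ _ _ _ _ _ _ _ (by norm_num) (by norm_num) (by norm_num) (by norm_num) (by norm_num) (by norm_num) (by norm_num) (by norm_num) _)

private theorem sgK_eq {m : ℕ} (p : Pt m) :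
    sgK p = (mob 0 3 (-1) 1 (-2) p.2, mob 0 2 (-1) 1 (-3) p.1) := by
  unfold sgK
  rw [swK_eq0, trp_eq]
  exact Prod.ext (mm _ 3 _ _ _ _ _ _ _ _ _ _ _ _ (by norm_num) (by norm_num) (by norm_num) (by norm_num) (by norm_num) (by norm_num) (by norm_num) (by norm_num) _)
    (mm _ (-3) _ _ _ _ _ _ _ _ _ _ _ _ (by norm_num) (by norm_num) (by norm_num) (by norm_num) (by norm_num) (by norm_num) (by norm_num) (by norm_num) _)

private theorem c4K_eq {m : ℕ} (p : Pt m) :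
    c4K p = (mob 1 12 (-1) 1 (-4) p.2, mob 1 4 (-1) 1 (-12) p.1) := by
  unfold c4K
  rw [swK_eq1, trp_eq]
  exact Prod.ext (mm _ 3 _ _ _ _ _ _ _ _ _ _ _ _ (by norm_num) (by norm_num) (by norm_num) (by norm_num) (by norm_num) (by norm_num) (by norm_num) (by norm_num) _)
    (mm _ (-3) _ _ _ _ _ _ _ _ _ _ _ _ (by norm_num) (by norm_num) (by norm_num) (by norm_num) (by norm_num) (by norm_num) (by norm_num) (by norm_num) _)

private theorem c7K_eq {m : ℕ} (p : Pt m) :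
    c7K p = (mob 1 6 (-1) 1 (-8) p.2, mob 1 8 (-1) 1 (-6) p.1) := by
  unfold c7K
  rw [swK_eq1, trp_eq]
  exact Prod.ext (mm _ 3 _ _ _ _ _ _ _ _ _ _ _ _ (by norm_num) (by norm_num) (by norm_num) (by norm_num) (by norm_num) (by norm_num) (by norm_num) (by norm_num) _)
    (mm _ (-3) _ _ _ _ _ _ _ _ _ _ _ _ (by norm_num) (by norm_num) (by norm_num) (by norm_num) (by norm_num) (by norm_num) (by norm_num) (by norm_num) _)

private theorem c2K_eq {m : ℕ} (p : Pt m) :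
    c2K p = (mob 1 3 (-1) 1 (-16) p.2, mob 1 16 (-1) 1 (-3) p.1) := by
  unfold c2K
  rw [swK_eq1, trp_eq]
  exact Prod.ext (mm _ 3 _ _ _ _ _ _ _ _ _ _ _ _ (by norm_num) (by norm_num) (by norm_num) (by norm_num) (by norm_num) (by norm_num) (by norm_num) (by norm_num) _)
    (mm _ (-3) _ _ _ _ _ _ _ _ _ _ _ _ (by norm_num) (by norm_num) (by norm_num) (by norm_num) (by norm_num) (by norm_num) (by norm_num) (by norm_num) _)

private theorem c3K_eq {m : ℕ} (p : Pt m) :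
    c3K p = (mob 1 6 (-3) 3 (-73) p.2, mob 1 73 (-3) 3 (-6) p.1) := by
  unfold c3K
  rw [swK_eq1, trp_eq]
  exact Prod.ext (mm _ 1 _ _ _ _ _ _ _ _ _ _ _ _ (by norm_num) (by norm_num) (by norm_num) (by norm_num) (by norm_num) (by norm_num) (by norm_num) (by norm_num) _)
    (mm _ (-1) _ _ _ _ _ _ _ _ _ _ _ _ (by norm_num) (by norm_num) (by norm_num) (by norm_num) (by norm_num) (by norm_num) (by norm_num) (by norm_num) _)

private theorem c0K_eq {m : ℕ} (p : Pt m) :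
    c0K p = (mob 1 9 (-5) 5 (-136) p.2, mob 1 136 (-5) 5 (-9) p.1) := by
  unfold c0K
  rw [swK_eq1, trp_eq]
  exact Prod.ext (mm _ 3 _ _ _ _ _ _ _ _ _ _ _ _ (by norm_num) (by norm_num) (by norm_num) (by norm_num) (by norm_num) (by norm_num) (by norm_num) (by norm_num) _)
    (mm _ (-3) _ _ _ _ _ _ _ _ _ _ _ _ (by norm_num) (by norm_num) (by norm_num) (by norm_num) (by norm_num) (by norm_num) (by norm_num) (by norm_num) _)

private theorem d5K_eq {m : ℕ} (p : Pt m) :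
    d5K p = (mob 1 12 (-3) 3 (-37) p.2, mob 1 37 (-3) 3 (-12) p.1) := by
  unfold d5K
  rw [ngsw_eq1, trp_eq]
  exact Prod.ext (mm _ 1 _ _ _ _ _ _ _ _ _ _ _ _ (by norm_num) (by norm_num) (by norm_num) (by norm_num) (by norm_num) (by norm_num) (by norm_num) (by norm_num) _)
    (mm _ 1 _ _ _ _ _ _ _ _ _ _ _ _ (by norm_num) (by norm_num) (by norm_num) (by norm_num) (by norm_num) (by norm_num) (by norm_num) (by norm_num) _)

private theorem gAK_eq {m : ℕ} (p : Pt m) :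
    gAK p = (mob 1 9 (-1) 2 (-11) p.2, mob 1 11 (-2) 1 (-9) p.1) := by
  unfold gAK
  rw [ngsw_eq1, trp_eq]
  exact Prod.ext (mm _ 3 _ _ _ _ _ _ _ _ _ _ _ _ (by norm_num) (by norm_num) (by norm_num) (by norm_num) (by norm_num) (by norm_num) (by norm_num) (by norm_num) _)
    (mm _ 3 _ _ _ _ _ _ _ _ _ _ _ _ (by norm_num) (by norm_num) (by norm_num) (by norm_num) (by norm_num) (by norm_num) (by norm_num) (by norm_num) _)

private theorem gBK_eq {m : ℕ} (p : Pt m) :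
    gBK p = (mob 1 15 (-3) 6 (-59) p.2, mob 1 59 (-6) 3 (-15) p.1) := by
  unfold gBK
  rw [ngsw_eq1, trp_eq]
  exact Prod.ext (mm _ 1 _ _ _ _ _ _ _ _ _ _ _ _ (by norm_num) (by norm_num) (by norm_num) (by norm_num) (by norm_num) (by norm_num) (by norm_num) (by norm_num) _)
    (mm _ 1 _ _ _ _ _ _ _ _ _ _ _ _ (by norm_num) (by norm_num) (by norm_num) (by norm_num) (by norm_num) (by norm_num) (by norm_num) (by norm_num) _)

private theorem swsw {m : ℕ} (p : Pt m) : swK (swK p) = p := by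
  rw [swK_eq0, swK_eq0]
  exact Prod.ext ((mm _ 3 _ _ _ _ _ _ _ _ 1 0 0 1 (by norm_num) (by norm_num) (by norm_num) (by norm_num) (by norm_num) (by norm_num) (by norm_num) (by norm_num) _).trans (mob_id _ _))
    ((mm _ 3 _ _ _ _ _ _ _ _ 1 0 0 1 (by norm_num) (by norm_num) (by norm_num) (by norm_num) (by norm_num) (by norm_num) (by norm_num) (by norm_num) _).trans (mob_id _ _))

private theorem cOK2 {m : ℕ} (p : Pt m) : cOK (cOK p) = p := by
  rw [cOK_eq, cOK_eq]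
  exact Prod.ext ((mm _ (-3) _ _ _ _ _ _ _ _ 1 0 0 1 (by norm_num) (by norm_num) (by norm_num) (by norm_num) (by norm_num) (by norm_num) (by norm_num) (by norm_num) _).trans (mob_id _ _))
    ((mm _ (-3) _ _ _ _ _ _ _ _ 1 0 0 1 (by norm_num) (by norm_num) (by norm_num) (by norm_num) (by norm_num) (by norm_num) (by norm_num) (by norm_num) _).trans (mob_id _ _))

private theorem sgK2 {m : ℕ} (p : Pt m) : sgK (sgK p) = p := by
  rw [sgK_eq, sgK_eq]
  exact Prod.ext ((mm _ (-1) _ _ _ _ _ _ _ _ 1 0 0 1 (by norm_num) (by norm_num) (by norm_num) (by norm_num) (by norm_num) (by norm_num) (by norm_num) (by norm_num) _).trans (mob_id _ _))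
    ((mm _ (-1) _ _ _ _ _ _ _ _ 1 0 0 1 (by norm_num) (by norm_num) (by norm_num) (by norm_num) (by norm_num) (by norm_num) (by norm_num) (by norm_num) _).trans (mob_id _ _))

private theorem c4K2 {m : ℕ} (p : Pt m) : c4K (c4K p) = p := by
  rw [c4K_eq, c4K_eq]
  exact Prod.ext ((mm _ (-1) _ _ _ _ _ _ _ _ 1 0 0 1 (by norm_num) (by norm_num) (by norm_num) (by norm_num) (by norm_num) (by norm_num) (by norm_num) (by norm_num) _).trans (mob_id _ _))
    ((mm _ (-1) _ _ _ _ _ _ _ _ 1 0 0 1 (by norm_num) (by norm_num) (by norm_num) (by norm_num) (by norm_num) (by norm_num) (by norm_num) (by norm_num) _).trans (mob_id _ _))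

private theorem c7K2 {m : ℕ} (p : Pt m) : c7K (c7K p) = p := by
  rw [c7K_eq, c7K_eq]
  exact Prod.ext ((mm _ (-1) _ _ _ _ _ _ _ _ 1 0 0 1 (by norm_num) (by norm_num) (by norm_num) (by norm_num) (by norm_num) (by norm_num) (by norm_num) (by norm_num) _).trans (mob_id _ _))
    ((mm _ (-1) _ _ _ _ _ _ _ _ 1 0 0 1 (by norm_num) (by norm_num) (by norm_num) (by norm_num) (by norm_num) (by norm_num) (by norm_num) (by norm_num) _).trans (mob_id _ _))

private theorem c2K2 {m : ℕ} (p : Pt m) : c2K (c2K p) = p := by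
  rw [c2K_eq, c2K_eq]
  exact Prod.ext ((mm _ (-1) _ _ _ _ _ _ _ _ 1 0 0 1 (by norm_num) (by norm_num) (by norm_num) (by norm_num) (by norm_num) (by norm_num) (by norm_num) (by norm_num) _).trans (mob_id _ _))
    ((mm _ (-1) _ _ _ _ _ _ _ _ 1 0 0 1 (by norm_num) (by norm_num) (by norm_num) (by norm_num) (by norm_num) (by norm_num) (by norm_num) (by norm_num) _).trans (mob_id _ _))

private theorem c3K2 {m : ℕ} (p : Pt m) : c3K (c3K p) = p := by
  rw [c3K_eq, c3K_eq]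
  exact Prod.ext ((mm _ (-3) _ _ _ _ _ _ _ _ 1 0 0 1 (by norm_num) (by norm_num) (by norm_num) (by norm_num) (by norm_num) (by norm_num) (by norm_num) (by norm_num) _).trans (mob_id _ _))
    ((mm _ (-3) _ _ _ _ _ _ _ _ 1 0 0 1 (by norm_num) (by norm_num) (by norm_num) (by norm_num) (by norm_num) (by norm_num) (by norm_num) (by norm_num) _).trans (mob_id _ _))

private theorem c0K2 {m : ℕ} (p : Pt m) : c0K (c0K p) = p := by
  rw [c0K_eq, c0K_eq]
  exact Prod.ext ((mm _ (-1) _ _ _ _ _ _ _ _ 1 0 0 1 (by norm_num) (by norm_num) (by norm_num) (by norm_num) (by norm_num) (by norm_num) (by norm_num) (by norm_num) _).trans (mob_id _ _))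
    ((mm _ (-1) _ _ _ _ _ _ _ _ 1 0 0 1 (by norm_num) (by norm_num) (by norm_num) (by norm_num) (by norm_num) (by norm_num) (by norm_num) (by norm_num) _).trans (mob_id _ _))

private theorem d5K2 {m : ℕ} (p : Pt m) : d5K (d5K p) = p := by
  rw [d5K_eq, d5K_eq]
  exact Prod.ext ((mm _ 3 _ _ _ _ _ _ _ _ 1 0 0 1 (by norm_num) (by norm_num) (by norm_num) (by norm_num) (by norm_num) (by norm_num) (by norm_num) (by norm_num) _).trans (mob_id _ _))
    ((mm _ 3 _ _ _ _ _ _ _ _ 1 0 0 1 (by norm_num) (by norm_num) (by norm_num) (by norm_num) (by norm_num) (by norm_num) (by norm_num) (by norm_num) _).trans (mob_id _ _))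

private theorem dRcOA {m : ℕ} (p : Pt m) :
    dR 0 (cOK p) = (mob 0 6 (-3) 3 (-11) p.2, mob 0 11 (-3) 3 (-6) p.1) := by
  rw [cOK_eq, dR_eq]
  exact Prod.ext (mm _ 1 _ _ _ _ _ _ _ _ _ _ _ _ (by norm_num) (by norm_num) (by norm_num) (by norm_num) (by norm_num) (by norm_num) (by norm_num) (by norm_num) _)
    (mm _ (-1) _ _ _ _ _ _ _ _ _ _ _ _ (by norm_num) (by norm_num) (by norm_num) (by norm_num) (by norm_num) (by norm_num) (by norm_num) (by norm_num) _)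

private theorem dRcOB {m : ℕ} (p : Pt m) :
    cOK (dR 0 p) = (mob 0 6 (-3) 3 (-11) p.2, mob 0 11 (-3) 3 (-6) p.1) := by
  rw [dR_eq, cOK_eq]
  exact Prod.ext (mm _ 1 _ _ _ _ _ _ _ _ _ _ _ _ (by norm_num) (by norm_num) (by norm_num) (by norm_num) (by norm_num) (by norm_num) (by norm_num) (by norm_num) _)
    (mm _ (-1) _ _ _ _ _ _ _ _ _ _ _ _ (by norm_num) (by norm_num) (by norm_num) (by norm_num) (by norm_num) (by norm_num) (by norm_num) (by norm_num) _)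

private theorem sgcOA {m : ℕ} (p : Pt m) :
    sgK (cOK p) = (mob 0 9 (-4) 3 (-9) p.1, mob 0 9 (-3) 4 (-9) p.2) := by
  rw [cOK_eq, sgK_eq]
  exact Prod.ext (mm _ 1 _ _ _ _ _ _ _ _ _ _ _ _ (by norm_num) (by norm_num) (by norm_num) (by norm_num) (by norm_num) (by norm_num) (by norm_num) (by norm_num) _)
    (mm _ (-1) _ _ _ _ _ _ _ _ _ _ _ _ (by norm_num) (by norm_num) (by norm_num) (by norm_num) (by norm_num) (by norm_num) (by norm_num) (by norm_num) _)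

private theorem sgcOB {m : ℕ} (p : Pt m) :
    cOK (sgK p) = (mob 0 9 (-4) 3 (-9) p.1, mob 0 9 (-3) 4 (-9) p.2) := by
  rw [sgK_eq, cOK_eq]
  exact Prod.ext (mm _ (-1) _ _ _ _ _ _ _ _ _ _ _ _ (by norm_num) (by norm_num) (by norm_num) (by norm_num) (by norm_num) (by norm_num) (by norm_num) (by norm_num) _)
    (mm _ 1 _ _ _ _ _ _ _ _ _ _ _ _ (by norm_num) (by norm_num) (by norm_num) (by norm_num) (by norm_num) (by norm_num) (by norm_num) (by norm_num) _)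

private theorem swc4A {m : ℕ} (p : Pt m) :
    swK (c4K p) = (mob 1 12 (-1) 3 (-12) p.1, mob 1 12 (-3) 1 (-12) p.2) := by
  rw [c4K_eq, swK_eq1]
  exact Prod.ext (mm _ 1 _ _ _ _ _ _ _ _ _ _ _ _ (by norm_num) (by norm_num) (by norm_num) (by norm_num) (by norm_num) (by norm_num) (by norm_num) (by norm_num) _)
    (mm _ 1 _ _ _ _ _ _ _ _ _ _ _ _ (by norm_num) (by norm_num) (by norm_num) (by norm_num) (by norm_num) (by norm_num) (by norm_num) (by norm_num) _)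

private theorem swc4B {m : ℕ} (p : Pt m) :
    c4K (swK p) = (mob 1 12 (-1) 3 (-12) p.1, mob 1 12 (-3) 1 (-12) p.2) := by
  rw [swK_eq1, c4K_eq]
  exact Prod.ext (mm _ 1 _ _ _ _ _ _ _ _ _ _ _ _ (by norm_num) (by norm_num) (by norm_num) (by norm_num) (by norm_num) (by norm_num) (by norm_num) (by norm_num) _)
    (mm _ 1 _ _ _ _ _ _ _ _ _ _ _ _ (by norm_num) (by norm_num) (by norm_num) (by norm_num) (by norm_num) (by norm_num) (by norm_num) (by norm_num) _)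

private theorem dRc3A {m : ℕ} (p : Pt m) :
    dR 1 (c3K p) = (mob 1 6 (-3) 3 (-74) p.2, mob 1 74 (-3) 3 (-6) p.1) := by
  rw [c3K_eq, dR_eq]
  exact Prod.ext (mm _ 1 _ _ _ _ _ _ _ _ _ _ _ _ (by norm_num) (by norm_num) (by norm_num) (by norm_num) (by norm_num) (by norm_num) (by norm_num) (by norm_num) _)
    (mm _ (-1) _ _ _ _ _ _ _ _ _ _ _ _ (by norm_num) (by norm_num) (by norm_num) (by norm_num) (by norm_num) (by norm_num) (by norm_num) (by norm_num) _)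

private theorem dRc3B {m : ℕ} (p : Pt m) :
    c3K (dR 1 p) = (mob 1 6 (-3) 3 (-74) p.2, mob 1 74 (-3) 3 (-6) p.1) := by
  rw [dR_eq, c3K_eq]
  exact Prod.ext (mm _ 1 _ _ _ _ _ _ _ _ _ _ _ _ (by norm_num) (by norm_num) (by norm_num) (by norm_num) (by norm_num) (by norm_num) (by norm_num) (by norm_num) _)
    (mm _ (-1) _ _ _ _ _ _ _ _ _ _ _ _ (by norm_num) (by norm_num) (by norm_num) (by norm_num) (by norm_num) (by norm_num) (by norm_num) (by norm_num) _)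

private theorem uRS {m : ℕ} (p : Pt m) :
    sgK (swK p) = (mob 0 3 (-1) 3 (-6) p.1, mob 0 (-6) 3 (-1) 3 p.2) := by
  rw [swK_eq0, sgK_eq]
  exact Prod.ext (mm _ 1 _ _ _ _ _ _ _ _ _ _ _ _ (by norm_num) (by norm_num) (by norm_num) (by norm_num) (by norm_num) (by norm_num) (by norm_num) (by norm_num) _)
    (mm _ (-1) _ _ _ _ _ _ _ _ _ _ _ _ (by norm_num) (by norm_num) (by norm_num) (by norm_num) (by norm_num) (by norm_num) (by norm_num) (by norm_num) _)

private theorem uSR {m : ℕ} (p : Pt m) :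
    swK (sgK p) = (mob 0 6 (-1) 3 (-3) p.1, mob 0 (-3) 3 (-1) 6 p.2) := by
  rw [sgK_eq, swK_eq0]
  exact Prod.ext (mm _ 1 _ _ _ _ _ _ _ _ _ _ _ _ (by norm_num) (by norm_num) (by norm_num) (by norm_num) (by norm_num) (by norm_num) (by norm_num) (by norm_num) _)
    (mm _ (-1) _ _ _ _ _ _ _ _ _ _ _ _ (by norm_num) (by norm_num) (by norm_num) (by norm_num) (by norm_num) (by norm_num) (by norm_num) (by norm_num) _)

private theorem uRSR {m : ℕ} (p : Pt m) :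
    sgK (swK (sgK p)) = (mob 0 12 (-3) 3 (-5) p.2, mob 0 5 (-3) 3 (-12) p.1) := by
  rw [uSR, sgK_eq]
  exact Prod.ext (mm _ 1 _ _ _ _ _ _ _ _ _ _ _ _ (by norm_num) (by norm_num) (by norm_num) (by norm_num) (by norm_num) (by norm_num) (by norm_num) (by norm_num) _)
    (mm _ 1 _ _ _ _ _ _ _ _ _ _ _ _ (by norm_num) (by norm_num) (by norm_num) (by norm_num) (by norm_num) (by norm_num) (by norm_num) (by norm_num) _)

private theorem uSRS {m : ℕ} (p : Pt m) :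
    swK (sgK (swK p)) = (mob 0 6 (-1) 1 (-1) p.2, mob 0 1 (-1) 1 (-6) p.1) := by
  rw [uRS, swK_eq0]
  exact Prod.ext (mm _ (-3) _ _ _ _ _ _ _ _ _ _ _ _ (by norm_num) (by norm_num) (by norm_num) (by norm_num) (by norm_num) (by norm_num) (by norm_num) (by norm_num) _)
    (mm _ 3 _ _ _ _ _ _ _ _ _ _ _ _ (by norm_num) (by norm_num) (by norm_num) (by norm_num) (by norm_num) (by norm_num) (by norm_num) (by norm_num) _)

private theorem uRSRS {m : ℕ} (p : Pt m) :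
    sgK (swK (sgK (swK p))) = (mob 0 4 (-1) 3 (-5) p.1, mob 0 (-5) 3 (-1) 4 p.2) := by
  rw [uSRS, sgK_eq]
  exact Prod.ext (mm _ (-1) _ _ _ _ _ _ _ _ _ _ _ _ (by norm_num) (by norm_num) (by norm_num) (by norm_num) (by norm_num) (by norm_num) (by norm_num) (by norm_num) _)
    (mm _ (-1) _ _ _ _ _ _ _ _ _ _ _ _ (by norm_num) (by norm_num) (by norm_num) (by norm_num) (by norm_num) (by norm_num) (by norm_num) (by norm_num) _)

private theorem uSRSR {m : ℕ} (p : Pt m) :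
    swK (sgK (swK (sgK p))) = (mob 0 5 (-1) 3 (-4) p.1, mob 0 (-4) 3 (-1) 5 p.2) := by
  rw [uRSR, swK_eq0]
  exact Prod.ext (mm _ 3 _ _ _ _ _ _ _ _ _ _ _ _ (by norm_num) (by norm_num) (by norm_num) (by norm_num) (by norm_num) (by norm_num) (by norm_num) (by norm_num) _)
    (mm _ (-3) _ _ _ _ _ _ _ _ _ _ _ _ (by norm_num) (by norm_num) (by norm_num) (by norm_num) (by norm_num) (by norm_num) (by norm_num) (by norm_num) _)

private theorem uRSRSR {m : ℕ} (p : Pt m) :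
    sgK (swK (sgK (swK (sgK p)))) = (mob 0 9 (-2) 2 (-3) p.2, mob 0 3 (-2) 2 (-9) p.1) := by
  rw [uSRSR, sgK_eq]
  exact Prod.ext (mm _ 1 _ _ _ _ _ _ _ _ _ _ _ _ (by norm_num) (by norm_num) (by norm_num) (by norm_num) (by norm_num) (by norm_num) (by norm_num) (by norm_num) _)
    (mm _ 1 _ _ _ _ _ _ _ _ _ _ _ _ (by norm_num) (by norm_num) (by norm_num) (by norm_num) (by norm_num) (by norm_num) (by norm_num) (by norm_num) _)

private theorem uSRSRS {m : ℕ} (p : Pt m) :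
    swK (sgK (swK (sgK (swK p)))) = (mob 0 15 (-3) 3 (-4) p.2, mob 0 4 (-3) 3 (-15) p.1) := by
  rw [uRSRS, swK_eq0]
  exact Prod.ext (mm _ (-1) _ _ _ _ _ _ _ _ _ _ _ _ (by norm_num) (by norm_num) (by norm_num) (by norm_num) (by norm_num) (by norm_num) (by norm_num) (by norm_num) _)
    (mm _ 1 _ _ _ _ _ _ _ _ _ _ _ _ (by norm_num) (by norm_num) (by norm_num) (by norm_num) (by norm_num) (by norm_num) (by norm_num) (by norm_num) _)

private theorem uRSRSRS {m : ℕ} (p : Pt m) :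
    sgK (swK (sgK (swK (sgK (swK p))))) = (mob 0 9 (-2) 6 (-9) p.1, mob 0 (-9) 6 (-2) 9 p.2) := by
  rw [uSRSRS, sgK_eq]
  exact Prod.ext (mm _ (-1) _ _ _ _ _ _ _ _ _ _ _ _ (by norm_num) (by norm_num) (by norm_num) (by norm_num) (by norm_num) (by norm_num) (by norm_num) (by norm_num) _)
    (mm _ (-1) _ _ _ _ _ _ _ _ _ _ _ _ (by norm_num) (by norm_num) (by norm_num) (by norm_num) (by norm_num) (by norm_num) (by norm_num) (by norm_num) _)

private theorem uSRSRSR {m : ℕ} (p : Pt m) :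
    swK (sgK (swK (sgK (swK (sgK p))))) = (mob 0 9 (-2) 6 (-9) p.1, mob 0 (-9) 6 (-2) 9 p.2) := by
  rw [uRSRSR, swK_eq0]
  exact Prod.ext (mm _ 1 _ _ _ _ _ _ _ _ _ _ _ _ (by norm_num) (by norm_num) (by norm_num) (by norm_num) (by norm_num) (by norm_num) (by norm_num) (by norm_num) _)
    (mm _ (-1) _ _ _ _ _ _ _ _ _ _ _ _ (by norm_num) (by norm_num) (by norm_num) (by norm_num) (by norm_num) (by norm_num) (by norm_num) (by norm_num) _)

private theorem vRS {m : ℕ} (p : Pt m) :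
    c3K (c0K p) = (mob 1 81 (-43) 3 (-78) p.1, mob 1 (-78) 3 (-43) 81 p.2) := by
  rw [c0K_eq, c3K_eq]
  exact Prod.ext (mm _ 1 _ _ _ _ _ _ _ _ _ _ _ _ (by norm_num) (by norm_num) (by norm_num) (by norm_num) (by norm_num) (by norm_num) (by norm_num) (by norm_num) _)
    (mm _ 1 _ _ _ _ _ _ _ _ _ _ _ _ (by norm_num) (by norm_num) (by norm_num) (by norm_num) (by norm_num) (by norm_num) (by norm_num) (by norm_num) _)

private theorem vSR {m : ℕ} (p : Pt m) :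
    c0K (c3K p) = (mob 1 78 (-43) 3 (-81) p.1, mob 1 (-81) 3 (-43) 78 p.2) := by
  rw [c3K_eq, c0K_eq]
  exact Prod.ext (mm _ (-1) _ _ _ _ _ _ _ _ _ _ _ _ (by norm_num) (by norm_num) (by norm_num) (by norm_num) (by norm_num) (by norm_num) (by norm_num) (by norm_num) _)
    (mm _ (-1) _ _ _ _ _ _ _ _ _ _ _ _ (by norm_num) (by norm_num) (by norm_num) (by norm_num) (by norm_num) (by norm_num) (by norm_num) (by norm_num) _)

private theorem vRSR {m : ℕ} (p : Pt m) :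
    c3K (c0K (c3K p)) = (mob 1 15 (-8) 8 (-209) p.2, mob 1 209 (-8) 8 (-15) p.1) := by
  rw [vSR, c3K_eq]
  exact Prod.ext (mm _ (-3) _ _ _ _ _ _ _ _ _ _ _ _ (by norm_num) (by norm_num) (by norm_num) (by norm_num) (by norm_num) (by norm_num) (by norm_num) (by norm_num) _)
    (mm _ (-3) _ _ _ _ _ _ _ _ _ _ _ _ (by norm_num) (by norm_num) (by norm_num) (by norm_num) (by norm_num) (by norm_num) (by norm_num) (by norm_num) _)

private theorem vSRS {m : ℕ} (p : Pt m) :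
    c0K (c3K (c0K p)) = (mob 1 33 (-18) 18 (-481) p.2, mob 1 481 (-18) 18 (-33) p.1) := by
  rw [vRS, c0K_eq]
  exact Prod.ext (mm _ 1 _ _ _ _ _ _ _ _ _ _ _ _ (by norm_num) (by norm_num) (by norm_num) (by norm_num) (by norm_num) (by norm_num) (by norm_num) (by norm_num) _)
    (mm _ 1 _ _ _ _ _ _ _ _ _ _ _ _ (by norm_num) (by norm_num) (by norm_num) (by norm_num) (by norm_num) (by norm_num) (by norm_num) (by norm_num) _)

private theorem vRSRS {m : ℕ} (p : Pt m) :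
    c3K (c0K (c3K (c0K p))) = (mob 1 80 (-43) 3 (-79) p.1, mob 1 (-79) 3 (-43) 80 p.2) := by
  rw [vSRS, c3K_eq]
  exact Prod.ext (mm _ 3 _ _ _ _ _ _ _ _ _ _ _ _ (by norm_num) (by norm_num) (by norm_num) (by norm_num) (by norm_num) (by norm_num) (by norm_num) (by norm_num) _)
    (mm _ 3 _ _ _ _ _ _ _ _ _ _ _ _ (by norm_num) (by norm_num) (by norm_num) (by norm_num) (by norm_num) (by norm_num) (by norm_num) (by norm_num) _)

private theorem vSRSR {m : ℕ} (p : Pt m) :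
    c0K (c3K (c0K (c3K p))) = (mob 1 79 (-43) 3 (-80) p.1, mob 1 (-80) 3 (-43) 79 p.2) := by
  rw [vRSR, c0K_eq]
  exact Prod.ext (mm _ (-1) _ _ _ _ _ _ _ _ _ _ _ _ (by norm_num) (by norm_num) (by norm_num) (by norm_num) (by norm_num) (by norm_num) (by norm_num) (by norm_num) _)
    (mm _ (-1) _ _ _ _ _ _ _ _ _ _ _ _ (by norm_num) (by norm_num) (by norm_num) (by norm_num) (by norm_num) (by norm_num) (by norm_num) (by norm_num) _)

private theorem vRSRSR {m : ℕ} (p : Pt m) :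
    c3K (c0K (c3K (c0K (c3K p)))) = (mob 1 39 (-21) 21 (-554) p.2, mob 1 554 (-21) 21 (-39) p.1) := by
  rw [vSRSR, c3K_eq]
  exact Prod.ext (mm _ (-1) _ _ _ _ _ _ _ _ _ _ _ _ (by norm_num) (by norm_num) (by norm_num) (by norm_num) (by norm_num) (by norm_num) (by norm_num) (by norm_num) _)
    (mm _ (-1) _ _ _ _ _ _ _ _ _ _ _ _ (by norm_num) (by norm_num) (by norm_num) (by norm_num) (by norm_num) (by norm_num) (by norm_num) (by norm_num) _)

private theorem vSRSRS {m : ℕ} (p : Pt m) :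
    c0K (c3K (c0K (c3K (c0K p)))) = (mob 1 24 (-13) 13 (-345) p.2, mob 1 345 (-13) 13 (-24) p.1) := by
  rw [vRSRS, c0K_eq]
  exact Prod.ext (mm _ 1 _ _ _ _ _ _ _ _ _ _ _ _ (by norm_num) (by norm_num) (by norm_num) (by norm_num) (by norm_num) (by norm_num) (by norm_num) (by norm_num) _)
    (mm _ 1 _ _ _ _ _ _ _ _ _ _ _ _ (by norm_num) (by norm_num) (by norm_num) (by norm_num) (by norm_num) (by norm_num) (by norm_num) (by norm_num) _)

private theorem vRSRSRS {m : ℕ} (p : Pt m) :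
    c3K (c0K (c3K (c0K (c3K (c0K p))))) = (mob 1 159 (-86) 6 (-159) p.1, mob 1 (-159) 6 (-86) 159 p.2) := by
  rw [vSRSRS, c3K_eq]
  exact Prod.ext (mm _ 1 _ _ _ _ _ _ _ _ _ _ _ _ (by norm_num) (by norm_num) (by norm_num) (by norm_num) (by norm_num) (by norm_num) (by norm_num) (by norm_num) _)
    (mm _ 1 _ _ _ _ _ _ _ _ _ _ _ _ (by norm_num) (by norm_num) (by norm_num) (by norm_num) (by norm_num) (by norm_num) (by norm_num) (by norm_num) _)

private theorem vSRSRSR {m : ℕ} (p : Pt m) :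
    c0K (c3K (c0K (c3K (c0K (c3K p))))) = (mob 1 159 (-86) 6 (-159) p.1, mob 1 (-159) 6 (-86) 159 p.2) := by
  rw [vRSRSR, c0K_eq]
  exact Prod.ext (mm _ (-1) _ _ _ _ _ _ _ _ _ _ _ _ (by norm_num) (by norm_num) (by norm_num) (by norm_num) (by norm_num) (by norm_num) (by norm_num) (by norm_num) _)
    (mm _ (-1) _ _ _ _ _ _ _ _ _ _ _ _ (by norm_num) (by norm_num) (by norm_num) (by norm_num) (by norm_num) (by norm_num) (by norm_num) (by norm_num) _)

/-- Module TYPK7. -/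
theorem hTypK : HTypK := by
  intro m
  refine ⟨⟨⟨?_, swsw, ?_⟩, ?_, ?_, ?_⟩,
    ⟨⟨dRdR 0, cOK2, fun p => (dRcOA p).trans (dRcOB p).symm⟩, ?_, ?_, ?_⟩,
    ⟨⟨sgK2, cOK2, fun p => (sgcOA p).trans (sgcOB p).symm⟩, ?_, ?_⟩,
    ⟨⟨sgK2, swsw, fun p => (uRSRSRS p).trans (uSRSRSR p).symm⟩,
      ⟨?_, ?_, ?_, ?_, ?_, ?_⟩, ?_, ?_, ?_, ?_, ?_⟩,
    ⟨⟨swsw, c4K2, fun p => (swc4A p).trans (swc4B p).symm⟩, ?_, ?_⟩,
    ⟨⟨dRdR 1, c3K2, fun p => (dRc3A p).trans (dRc3B p).symm⟩, ?_, ?_, ?_⟩,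
    ⟨⟨c3K2, c0K2, fun p => (vRSRSRS p).trans (vSRSRSR p).symm⟩,
      ⟨?_, ?_, ?_, ?_, ?_, ?_⟩, ?_, ?_, ?_, ?_, ?_⟩,
    ⟨c2K2, ?_⟩, ⟨d5K2, ?_⟩, ⟨c7K2, ?_⟩, ⟨?_, ?_⟩,
    fun p => ⟨uRS p, uRSRS p, uRSRSRS p, uSRSR p, uSR p⟩,
    fun p => ⟨vRS p, vRSRS p, vRSRSRS p, vSRSR p, vSR p⟩⟩
  · intro p
    simp [ng]
  · intro p
    unfold ng swK
    simp
  · exact ty0 _ 0 6 6 _ _ _ _ _ _ _ _ (by norm_num) (by norm_num) (by norm_num) (by norm_num) (by norm_num) (by norm_num) (by norm_num) (by norm_num) (ng_eq 0)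
  · exact ty1 _ 0 5 3 _ _ _ _ _ _ _ _ (by norm_num) (by norm_num) (by norm_num) (by norm_num) (by norm_num) (by norm_num) swK_eq0
  · exact ty1 _ 0 2 4 _ _ _ _ _ _ _ _ (by norm_num) (by norm_num) (by norm_num) (by norm_num) (by norm_num) (by norm_num) ngsw_eq0
  · exact ty0 _ 0 6 6 _ _ _ _ _ _ _ _ (by norm_num) (by norm_num) (by norm_num) (by norm_num) (by norm_num) (by norm_num) (by norm_num) (by norm_num) (dR_eq 0)
  · exact ty1 _ 0 3 5 _ _ _ _ _ _ _ _ (by norm_num) (by norm_num) (by norm_num) (by norm_num) (by norm_num) (by norm_num) cOK_eq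
  · exact ty1 _ 0 4 2 _ _ _ _ _ _ _ _ (by norm_num) (by norm_num) (by norm_num) (by norm_num) (by norm_num) (by norm_num) dRcOA
  · exact ty1 _ 0 4 2 _ _ _ _ _ _ _ _ (by norm_num) (by norm_num) (by norm_num) (by norm_num) (by norm_num) (by norm_num) sgK_eq
  · exact ty0 _ 0 6 6 _ _ _ _ _ _ _ _ (by norm_num) (by norm_num) (by norm_num) (by norm_num) (by norm_num) (by norm_num) (by norm_num) (by norm_num) sgcOA
  · exact ty1 _ 0 4 2 _ _ _ _ _ _ _ _ (by norm_num) (by norm_num) (by norm_num) (by norm_num) (by norm_num) (by norm_num) sgK_eq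
  · exact ty1 _ 0 5 3 _ _ _ _ _ _ _ _ (by norm_num) (by norm_num) (by norm_num) (by norm_num) (by norm_num) (by norm_num) swK_eq0
  · exact ty1 _ 0 6 6 _ _ _ _ _ _ _ _ (by norm_num) (by norm_num) (by norm_num) (by norm_num) (by norm_num) (by norm_num) uRSR
  · exact ty1 _ 0 1 1 _ _ _ _ _ _ _ _ (by norm_num) (by norm_num) (by norm_num) (by norm_num) (by norm_num) (by norm_num) uSRS
  · exact ty1 _ 0 2 4 _ _ _ _ _ _ _ _ (by norm_num) (by norm_num) (by norm_num) (by norm_num) (by norm_num) (by norm_num) uRSRSR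
  · exact ty1 _ 0 3 5 _ _ _ _ _ _ _ _ (by norm_num) (by norm_num) (by norm_num) (by norm_num) (by norm_num) (by norm_num) uSRSRS
  · exact ty0 _ 0 5 3 _ _ _ _ _ _ _ _ (by norm_num) (by norm_num) (by norm_num) (by norm_num) (by norm_num) (by norm_num) (by norm_num) (by norm_num) uRS
  · exact ty0 _ 0 3 5 _ _ _ _ _ _ _ _ (by norm_num) (by norm_num) (by norm_num) (by norm_num) (by norm_num) (by norm_num) (by norm_num) (by norm_num) uSR
  · exact ty0 _ 0 4 2 _ _ _ _ _ _ _ _ (by norm_num) (by norm_num) (by norm_num) (by norm_num) (by norm_num) (by norm_num) (by norm_num) (by norm_num) uRSRS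
  · exact ty0 _ 0 2 4 _ _ _ _ _ _ _ _ (by norm_num) (by norm_num) (by norm_num) (by norm_num) (by norm_num) (by norm_num) (by norm_num) (by norm_num) uSRSR
  · exact ty0 _ 0 6 6 _ _ _ _ _ _ _ _ (by norm_num) (by norm_num) (by norm_num) (by norm_num) (by norm_num) (by norm_num) (by norm_num) (by norm_num) uRSRSRS
  · exact ty1 _ 1 2 4 _ _ _ _ _ _ _ _ (by norm_num) (by norm_num) (by norm_num) (by norm_num) (by norm_num) (by norm_num) c4K_eq
  · exact ty0 _ 1 6 6 _ _ _ _ _ _ _ _ (by norm_num) (by norm_num) (by norm_num) (by norm_num) (by norm_num) (by norm_num) (by norm_num) (by norm_num) swc4A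
  · exact ty0 _ 1 6 6 _ _ _ _ _ _ _ _ (by norm_num) (by norm_num) (by norm_num) (by norm_num) (by norm_num) (by norm_num) (by norm_num) (by norm_num) (dR_eq 1)
  · exact ty1 _ 1 3 5 _ _ _ _ _ _ _ _ (by norm_num) (by norm_num) (by norm_num) (by norm_num) (by norm_num) (by norm_num) c3K_eq
  · exact ty1 _ 1 4 2 _ _ _ _ _ _ _ _ (by norm_num) (by norm_num) (by norm_num) (by norm_num) (by norm_num) (by norm_num) dRc3A
  · exact ty1 _ 1 3 5 _ _ _ _ _ _ _ _ (by norm_num) (by norm_num) (by norm_num) (by norm_num) (by norm_num) (by norm_num) c3K_eq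
  · exact ty1 _ 1 2 4 _ _ _ _ _ _ _ _ (by norm_num) (by norm_num) (by norm_num) (by norm_num) (by norm_num) (by norm_num) c0K_eq
  · exact ty1 _ 1 1 1 _ _ _ _ _ _ _ _ (by norm_num) (by norm_num) (by norm_num) (by norm_num) (by norm_num) (by norm_num) vRSR
  · exact ty1 _ 1 6 6 _ _ _ _ _ _ _ _ (by norm_num) (by norm_num) (by norm_num) (by norm_num) (by norm_num) (by norm_num) vSRS
  · exact ty1 _ 1 5 3 _ _ _ _ _ _ _ _ (by norm_num) (by norm_num) (by norm_num) (by norm_num) (by norm_num) (by norm_num) vRSRSR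
  · exact ty1 _ 1 4 2 _ _ _ _ _ _ _ _ (by norm_num) (by norm_num) (by norm_num) (by norm_num) (by norm_num) (by norm_num) vSRSRS
  · exact ty0 _ 1 5 3 _ _ _ _ _ _ _ _ (by norm_num) (by norm_num) (by norm_num) (by norm_num) (by norm_num) (by norm_num) (by norm_num) (by norm_num) vRS
  · exact ty0 _ 1 3 5 _ _ _ _ _ _ _ _ (by norm_num) (by norm_num) (by norm_num) (by norm_num) (by norm_num) (by norm_num) (by norm_num) (by norm_num) vSR
  · exact ty0 _ 1 4 2 _ _ _ _ _ _ _ _ (by norm_num) (by norm_num) (by norm_num) (by norm_num) (by norm_num) (by norm_num) (by norm_num) (by norm_num) vRSRS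
  · exact ty0 _ 1 2 4 _ _ _ _ _ _ _ _ (by norm_num) (by norm_num) (by norm_num) (by norm_num) (by norm_num) (by norm_num) (by norm_num) (by norm_num) vSRSR
  · exact ty0 _ 1 6 6 _ _ _ _ _ _ _ _ (by norm_num) (by norm_num) (by norm_num) (by norm_num) (by norm_num) (by norm_num) (by norm_num) (by norm_num) vRSRSRS
  · exact ty1 _ 1 4 2 _ _ _ _ _ _ _ _ (by norm_num) (by norm_num) (by norm_num) (by norm_num) (by norm_num) (by norm_num) c2K_eq
  · exact ty1 _ 1 1 1 _ _ _ _ _ _ _ _ (by norm_num) (by norm_num) (by norm_num) (by norm_num) (by norm_num) (by norm_num) d5K_eq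
  · exact ty1 _ 1 1 1 _ _ _ _ _ _ _ _ (by norm_num) (by norm_num) (by norm_num) (by norm_num) (by norm_num) (by norm_num) c7K_eq
  · exact ty1 _ 1 5 3 _ _ _ _ _ _ _ _ (by norm_num) (by norm_num) (by norm_num) (by norm_num) (by norm_num) (by norm_num) gAK_eq
  · exact ty1 _ 1 4 2 _ _ _ _ _ _ _ _ (by norm_num) (by norm_num) (by norm_num) (by norm_num) (by norm_num) (by norm_num) gBK_eq

end Pool.Agent.Helper75.TK7
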