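import Pool.Agent.Helper14.TK7.StD

/-!
# Project TK (levels `3·7^n`), modules TRE, REL, RLL: values on translated paths, the relations, the relations as operators
-/

set_option autoImplicit false

namespace Pool.Agent.Helper75.TK7

open Pool.Agent.Helper14.TK7 Pool.Agent.Helper84.S7
open Pool.Agent.Helper14.CV (Homog)
open Pool.Agent.Helper76.TK7 (PlK rYK edgeK HPlAK HEdgK)
open Pool.Agent.Helper4.TK (KTy SymK)
open Pool.Agent.Helper4.S7 (Tm)

private lemma unit_of {r : ℕ} {a : ℤ} (e : ℤ) (h : ∃ p q : ℤ, a * p + 7 * q = 1) :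
    IsUnit ((a : ZMod (7 ^ r)) + 7 * e) := by
  have h1 : ((a : ZMod (7 ^ r)) + 7 * e) = ((a + 7 * e : ℤ) : ZMod (7 ^ r)) := by push_cast; ring
  rw [h1, ZMod.coe_int_isUnit_iff_isCoprime]
  push_cast
  apply IsCoprime.pow_left
  obtain ⟨p, q, hpq⟩ := h
  exact ⟨q - e * p, p, by linear_combination hpq⟩

private lemma cop {a b c d : ℤ} (h : KTy a b (7 * c) d) :
    (∃ p q : ℤ, a * p + 7 * q = 1) ∧ (∃ p q : ℤ, d * p + 7 * q = 1) := by
  rcases h with ⟨h, -⟩ | ⟨h, -⟩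
  · exact ⟨⟨d, -(b * c), by linear_combination h⟩, ⟨a, -(b * c), by linear_combination h⟩⟩
  · exact ⟨⟨5 * d, -(5 * b * c) - 2, by linear_combination 5 * h⟩,
      ⟨5 * a, -(5 * b * c) - 2, by linear_combination 5 * h⟩⟩

/-- MODULE TRE -/
theorem hTre (he : HEdgK) (ha : HPlAK) : TTre := by
  intro R _ r s G hG a b c d u1 u2 v1 v2 hT hu hv x y
  obtain ⟨-, -, h3⟩ := ha 0 r s x y
  obtain ⟨Z, hZ⟩ : ∃ Z : ℤ, rYK 0 x y = 3 * Z := ⟨_, rfl⟩
  set X : ℤ := (x.val : ℤ) with hX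
  set Y : ℤ := rYK 0 x y with hY
  have hx : ((X : ℤ) : ZMod (7 ^ r)) = x := by
    rw [hX]
    simp
  have hyv : ((y.val : ℤ) : ZMod (7 ^ s)) = y := by
    simp
  have ua : IsUnit ((a : ZMod (7 ^ r)) + 7 * c * x) := by
    have := unit_of (r := r) (a := a) (c * X) (cop hT).1
    rw [Int.cast_mul, hx, ← mul_assoc] at this
    exact this
  have ud : IsUnit ((d : ZMod (7 ^ s)) + 7 * b * y) := by
    have := unit_of (r := s) (a := d) (b * (y.val : ℤ)) (cop hT).2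
    rw [Int.cast_mul, hyv, ← mul_assoc] at this
    exact this
  have hP : PlK 0 (a + 7 * X * c) (b + X * d) (Y * a + c * (1 + 7 * X * Y)) (7 * Y * b + d * (1 + 7 * X * Y))
      ((((b : ℤ) : ZMod (7 ^ r)) + ((d : ℤ) : ZMod (7 ^ r)) * x) *
        (((a : ℤ) : ZMod (7 ^ r)) + 7 * ((c : ℤ) : ZMod (7 ^ r)) * x)⁻¹)
      ((((c : ℤ) : ZMod (7 ^ s)) + ((a : ℤ) : ZMod (7 ^ s)) * y) *
        (((d : ℤ) : ZMod (7 ^ s)) + 7 * ((b : ℤ) : ZMod (7 ^ s)) * y)⁻¹) := by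
    refine ⟨?_, ?_, ?_⟩
    · rw [pow_zero, one_mul]
      rcases hT with ⟨h1, ⟨e, he⟩⟩ | ⟨h1, ⟨e1, he1⟩, ⟨e2, he2⟩, ⟨e3, he3⟩⟩
      · refine Or.inl ⟨by linear_combination h1, 7 * Z * a + e * (1 + 7 * X * Y), ?_⟩
        linear_combination (7 * a) * hZ + (1 + 7 * X * Y) * he
      · refine Or.inr ⟨by linear_combination h1, ⟨e1 + X * e2, ?_⟩,
          ⟨7 * Z * a + e2 * (1 + 7 * X * Y), ?_⟩, ⟨7 * Z * b + e3 * (1 + 7 * X * Y), ?_⟩⟩
        · linear_combination he1 + X * he2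
        · linear_combination (7 * a) * hZ + (1 + 7 * X * Y) * he2
        · linear_combination (7 * b) * hZ + (1 + 7 * X * Y) * he3
    · push_cast
      rw [hx]
      have e := ZMod.mul_inv_of_unit _ ua
      linear_combination (-((b : ZMod (7 ^ r)) + d * x)) * e
    · have e := ZMod.mul_inv_of_unit _ ud
      have h3' : ((Y : ℤ) : ZMod (7 ^ s)) = y * (1 + 7 * X * Y) := by
        refine h3.trans ?_
        push_cast
        ring
      push_cast
      linear_combination (-((c : ZMod (7 ^ s)) + a * y) * (1 + 7 * X * Y)) * e +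
        ((a : ZMod (7 ^ s)) - ((c : ZMod (7 ^ s)) + a * y) * ((d : ZMod (7 ^ s)) + 7 * b * y)⁻¹ * 7 * b) * h3'
  have hE := he R _ 0 r s G hG u1 u2 v1 v2 hu hv _ _ _ _ _ _ hP
  show _ = edgeK 0 u1 u2 v1 v2 G _ _
  rw [hE]
  unfold edgeK
  rw [← hX, ← hY]
  congr 2 <;> ring

/-- Scalar multiples of the vector do not matter. -/
private lemma rel_sc {R : Type} {G : ℤ → ℤ → R} (hG : Homog G) (X Y k u1 u2 : ℤ) (hk : k ≠ 0)
    (hu : u1 ≠ 0 ∨ u2 ≠ 0) :
    G (k * u1 + X * (k * u2)) (7 * Y * (k * u1) + (1 + 7 * X * Y) * (k * u2)) =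
      G (u1 + X * u2) (7 * Y * u1 + (1 + 7 * X * Y) * u2) := by
  have hne : (1 * u1 + X * u2 ≠ 0 ∨ (7 * Y) * u1 + (1 + 7 * X * Y) * u2 ≠ 0) :=
    Pool.Agent.Helper14.CV.ne_zero_of_det (a := 1) (b := X) (c := 7 * Y) (d := 1 + 7 * X * Y)
      (by ring_nf; norm_num) hu
  rw [one_mul] at hne
  rw [← hG k _ _ hk hne]
  congr 1 <;> ring

/-- A value at a vector. -/
private noncomputable def vl {R : Type} (G : ℤ → ℤ → R) (X Y u1 u2 : ℤ) : R :=
  G (u1 + X * u2) (7 * Y * u1 + (1 + 7 * X * Y) * u2)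

private lemma edge_vl {R : Type} [AddCommGroup R] {q q' : ℕ} (u1 u2 v1 v2 : ℤ) (G : ℤ → ℤ → R)
    (x : ZMod q) (y : ZMod q') :
    edgeK 0 u1 u2 v1 v2 G x y = vl G (x.val : ℤ) (rYK 0 x y) u1 u2 - vl G (x.val : ℤ) (rYK 0 x y) v1 v2 := by
  unfold edgeK vl
  simp only [pow_zero, one_mul, zero_add, pow_one]

private lemma vl_sc {R : Type} {G : ℤ → ℤ → R} (hG : Homog G) (X Y k u1 u2 w1 w2 : ℤ) (hk : k ≠ 0)
    (hu : u1 ≠ 0 ∨ u2 ≠ 0) (h1 : w1 = k * u1) (h2 : w2 = k * u2) : vl G X Y w1 w2 = vl G X Y u1 u2 := by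
  rw [h1, h2]
  exact rel_sc hG X Y k u1 u2 hk hu

/-- The path function of an image, up to the scalars `k`, `l`. -/
private lemma img (ht : TTre) {R : Type} [AddCommGroup R] {r s : ℕ} {G : ℤ → ℤ → R} (hG : SymK 7 r (s + 1) G)
    (a b c d u1 u2 v1 v2 k l w1 w2 z1 z2 : ℤ) (hT : KTy a b (7 * c) d) (hu : u1 ≠ 0 ∨ u2 ≠ 0)
    (hv : v1 ≠ 0 ∨ v2 ≠ 0) (x : ZMod (7 ^ r)) (y : ZMod (7 ^ s)) (hk : k ≠ 0) (hl : l ≠ 0)
    (hw : w1 ≠ 0 ∨ w2 ≠ 0) (hz : z1 ≠ 0 ∨ z2 ≠ 0)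
    (h1 : a * u1 + b * u2 = k * w1) (h2 : 7 * c * u1 + d * u2 = k * w2)
    (h3 : a * v1 + b * v2 = l * z1) (h4 : 7 * c * v1 + d * v2 = l * z2) :
    tr7 a b c d (edgeK 0 u1 u2 v1 v2 G) x y =
      vl G (x.val : ℤ) (rYK 0 x y) w1 w2 - vl G (x.val : ℤ) (rYK 0 x y) z1 z2 := by
  rw [← ht R _ r s G hG a b c d u1 u2 v1 v2 hT hu hv x y, edge_vl,
    vl_sc hG.1 _ _ k w1 w2 _ _ hk hw h1 h2, vl_sc hG.1 _ _ l z1 z2 _ _ hl hz h3 h4]

/-- MODULE REL: the plane functions of a symbol satisfy the relations. -/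
theorem hRel (ht : TTre) : TRel := by
  intro R _ r s G hG
  have k0 : (pfK G 0 : ZMod (7 ^ r) → ZMod (7 ^ s) → R) = edgeK 0 1 0 0 1 G := by
    funext x y; rfl
  have k1 : (pfK G 1 : ZMod (7 ^ r) → ZMod (7 ^ s) → R) = edgeK 0 1 3 0 1 G := by
    funext x y; rfl
  have k2 : (pfK G 2 : ZMod (7 ^ r) → ZMod (7 ^ s) → R) = edgeK 0 1 2 0 1 G := by
    funext x y; rfl
  have k3 : (pfK G 3 : ZMod (7 ^ r) → ZMod (7 ^ s) → R) = edgeK 0 2 3 0 1 G := by
    funext x y; rfl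
  have kk : (kK (fun i => (pfK G i : ZMod (7 ^ r) → ZMod (7 ^ s) → R))) = edgeK 0 1 1 2 3 G := by
    funext x y
    show (pfK G 0 : ZMod (7 ^ r) → ZMod (7 ^ s) → R) x y - tr7 1 1 0 1 (pfK G 0) x y -
      (pfK G 3 : ZMod (7 ^ r) → ZMod (7 ^ s) → R) x y = _
    rw [k0, k3]
    have h0 := img ht hG 1 1 0 1 1 0 0 1 1 1 1 0 1 1 (by unfold KTy; decide) (by simp) (by simp) x y
      (by norm_num) (by norm_num) (by simp) (by simp) (by norm_num) (by norm_num) (by norm_num) (by norm_num)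
    rw [h0]
    simp only [edge_vl]
    abel
  refine ⟨fun x y => ?_, fun x y => ?_, fun x y => ?_, fun x y => ?_⟩
  · show nrK (pfK G 1 : ZMod (7 ^ r) → ZMod (7 ^ s) → R) x y = 0
    rw [k1]
    unfold nrK
    have h1 := img ht hG 6 (-1) 3 (-3) 1 3 0 1 3 (-1) 1 4 1 3 (by unfold KTy; decide) (by simp) (by simp) x y
      (by norm_num) (by norm_num) (by simp) (by simp) (by norm_num) (by norm_num) (by norm_num) (by norm_num)
    have h2 := img ht hG 5 (-1) 3 (-4) 1 3 0 1 1 (-1) 2 9 1 4 (by unfold KTy; decide) (by simp) (by simp) x y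
      (by norm_num) (by norm_num) (by simp) (by simp) (by norm_num) (by norm_num) (by norm_num) (by norm_num)
    have h3 := img ht hG 9 (-2) 6 (-9) 1 3 0 1 3 (-1) 1 5 2 9 (by unfold KTy; decide) (by simp) (by simp) x y
      (by norm_num) (by norm_num) (by simp) (by simp) (by norm_num) (by norm_num) (by norm_num) (by norm_num)
    have h4 := img ht hG 4 (-1) 3 (-5) 1 3 0 1 1 (-1) 1 6 1 5 (by unfold KTy; decide) (by simp) (by simp) x y
      (by norm_num) (by norm_num) (by simp) (by simp) (by norm_num) (by norm_num) (by norm_num) (by norm_num)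
    have h5 := img ht hG 3 (-1) 3 (-6) 1 3 0 1 3 (-1) 0 1 1 6 (by unfold KTy; decide) (by simp) (by simp) x y
      (by norm_num) (by norm_num) (by simp) (by simp) (by norm_num) (by norm_num) (by norm_num) (by norm_num)
    rw [h1, h2, h3, h4, h5, edge_vl]
    abel
  · show (pfK G 2 : ZMod (7 ^ r) → ZMod (7 ^ s) → R) x y - (pfK G 1 : ZMod (7 ^ r) → ZMod (7 ^ s) → R) x y +
      (tr7 9 (-4) 3 (-9) (pfK G 2) x y - tr7 9 (-4) 3 (-9) (pfK G 1) x y) = 0
    rw [k1, k2]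
    have h1 := img ht hG 9 (-4) 3 (-9) 1 2 0 1 1 (-1) 1 3 4 9 (by unfold KTy; decide) (by simp) (by simp) x y
      (by norm_num) (by norm_num) (by simp) (by simp) (by norm_num) (by norm_num) (by norm_num) (by norm_num)
    have h2 := img ht hG 9 (-4) 3 (-9) 1 3 0 1 (-3) (-1) 1 2 4 9 (by unfold KTy; decide) (by simp) (by simp) x y
      (by norm_num) (by norm_num) (by simp) (by simp) (by norm_num) (by norm_num) (by norm_num) (by norm_num)
    rw [h1, h2, edge_vl, edge_vl]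
    abel
  · show (pfK G 3 : ZMod (7 ^ r) → ZMod (7 ^ s) → R) x y - (pfK G 2 : ZMod (7 ^ r) → ZMod (7 ^ s) → R) x y +
      (tr7 12 (-7) 3 (-12) (pfK G 3) x y - tr7 12 (-7) 3 (-12) (pfK G 2) x y) = 0
    rw [k2, k3]
    have h1 := img ht hG 12 (-7) 3 (-12) 2 3 0 1 3 (-1) 1 2 7 12 (by unfold KTy; decide) (by simp) (by simp) x y
      (by norm_num) (by norm_num) (by simp) (by simp) (by norm_num) (by norm_num) (by norm_num) (by norm_num)
    have h2 := img ht hG 12 (-7) 3 (-12) 1 2 0 1 (-1) (-1) 2 3 7 12 (by unfold KTy; decide) (by simp) (by simp) x y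
      (by norm_num) (by norm_num) (by simp) (by simp) (by norm_num) (by norm_num) (by norm_num) (by norm_num)
    rw [h1, h2, edge_vl, edge_vl]
    abel
  · show ntK (kK (fun i => (pfK G i : ZMod (7 ^ r) → ZMod (7 ^ s) → R))) x y = 0
    rw [kk]
    unfold ntK
    have h1 := img ht hG 18 (-13) 3 (-15) 1 1 2 3 1 (-3) 5 6 1 1 (by unfold KTy; decide) (by simp) (by simp) x y
      (by norm_num) (by norm_num) (by simp) (by simp) (by norm_num) (by norm_num) (by norm_num) (by norm_num)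
    have h2 := img ht hG 17 (-13) 3 (-16) 1 1 2 3 1 (-1) 4 5 5 6 (by unfold KTy; decide) (by simp) (by simp) x y
      (by norm_num) (by norm_num) (by simp) (by simp) (by norm_num) (by norm_num) (by norm_num) (by norm_num)
    have h3 := img ht hG 33 (-26) 6 (-33) 1 1 2 3 1 (-3) 7 9 4 5 (by unfold KTy; decide) (by simp) (by simp) x y
      (by norm_num) (by norm_num) (by simp) (by simp) (by norm_num) (by norm_num) (by norm_num) (by norm_num)
    have h4 := img ht hG 16 (-13) 3 (-17) 1 1 2 3 1 (-1) 3 4 7 9 (by unfold KTy; decide) (by simp) (by simp) x y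
      (by norm_num) (by norm_num) (by simp) (by simp) (by norm_num) (by norm_num) (by norm_num) (by norm_num)
    have h5 := img ht hG 15 (-13) 3 (-18) 1 1 2 3 1 (-3) 2 3 3 4 (by unfold KTy; decide) (by simp) (by simp) x y
      (by norm_num) (by norm_num) (by simp) (by simp) (by norm_num) (by norm_num) (by norm_num) (by norm_num)
    rw [h1, h2, h3, h4, h5, edge_vl]
    abel

/-- MODULE RLL: the relations as operators. -/
theorem hRll (ht : S7Trm) : TRll := by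
  intro r s F hF ρ
  obtain ⟨r0, r1, r2, r3⟩ := hF
  have hid : ∀ G : Fn7 (7 ^ r) (7 ^ s), tr7 1 0 0 1 G = G := fun G => (ht (ZMod 7) r s G).2.1
  have hop : ∀ (a b c d : ℤ) (G : Fn7 (7 ^ r) (7 ^ s)) (x : ZMod (7 ^ r)) (y : ZMod (7 ^ s)),
      op7 a b c d G x y = tr7 a b c d G x y := fun _ _ _ _ _ _ _ => rfl
  have hsub : ∀ (a b c d : ℤ) (x : ZMod (7 ^ r)) (y : ZMod (7 ^ s)),
      tr7 a b c d (kK F) x y = tr7 a b c d (F 0) x y - tr7 a b c d (tr7 1 1 0 1 (F 0)) x y -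
        tr7 a b c d (F 3) x y := fun _ _ _ _ _ _ => rfl
  have hk : ∀ (x : ZMod (7 ^ r)) (y : ZMod (7 ^ s)), kK F x y = F 0 x y - tr7 1 1 0 1 (F 0) x y - F 3 x y :=
    fun _ _ => rfl
  have c1 : tr7 18 (-13) 3 (-15) (tr7 1 1 0 1 (F 0)) = tr7 18 5 3 6 (F 0) := by
    rw [(ht (ZMod 7) r s (F 0)).1 _ _ _ _ _ _ _ _ (by norm_num) (by norm_num) (by norm_num) (by norm_num)]
    norm_num
  have c2 : tr7 17 (-13) 3 (-16) (tr7 1 1 0 1 (F 0)) = tr7 17 4 3 5 (F 0) := by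
    rw [(ht (ZMod 7) r s (F 0)).1 _ _ _ _ _ _ _ _ (by norm_num) (by norm_num) (by norm_num) (by norm_num)]
    norm_num
  have c3 : tr7 33 (-26) 6 (-33) (tr7 1 1 0 1 (F 0)) = tr7 33 7 6 9 (F 0) := by
    rw [(ht (ZMod 7) r s (F 0)).1 _ _ _ _ _ _ _ _ (by norm_num) (by norm_num) (by norm_num) (by norm_num)]
    norm_num
  have c4 : tr7 16 (-13) 3 (-17) (tr7 1 1 0 1 (F 0)) = tr7 16 3 3 4 (F 0) := by
    rw [(ht (ZMod 7) r s (F 0)).1 _ _ _ _ _ _ _ _ (by norm_num) (by norm_num) (by norm_num) (by norm_num)]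
    norm_num
  have c5 : tr7 15 (-13) 3 (-18) (tr7 1 1 0 1 (F 0)) = tr7 15 2 3 3 (F 0) := by
    rw [(ht (ZMod 7) r s (F 0)).1 _ _ _ _ _ _ _ _ (by norm_num) (by norm_num) (by norm_num) (by norm_num)]
    norm_num
  funext x y
  rw [Fin.sum_univ_four]
  fin_cases ρ
  · have g := r0 x y
    unfold nrK at g
    simp [relK, opL, hop, hid]
    linear_combination g
  · have g := r1 x y
    simp [relK, opL, hop, hid]
    linear_combination g
  · have g := r2 x y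
    simp [relK, opL, hop, hid]
    linear_combination g
  · have g := r3 x y
    unfold ntK at g
    simp only [hsub, hk, c1, c2, c3, c4, c5] at g
    simp [relK, opL, hop, hid]
    linear_combination g

end Pool.Agent.Helper75.TK7
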